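import Pool.Agent.Helper73.DC.St6

set_option autoImplicit false

/-! Project DC (helper73), MP_26f0da_lc: module A3 (helper79): the parameters are E2. -/

namespace Pool.Agent.Helper79.DC

open Pool.Agent.Helper73.DC
open Finset
open scoped Classical

theorem mA3 : StL1 → StL2 → StL3 → StL4 → StL5 → StA3 := by
  intro hL1 _ _ hL4 hL5
  intro α _ P O e C hPO hbd
  -- powers with an E2 bound
  have hpow : ∀ F G B : VF α, E2 F → E2 G → E2 B → (∀ w v, F w v ^ G w v ≤ B w v) →
      E2 (fun w v => F w v ^ G w v) := by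
    intro F G B hF hG hB hb
    have h1 := (hL5 B F G F F hB hF hG hF hF).1
    have e1 : (fun w v => pw (B w v) (F w v) (G w v)) = (fun w v => F w v ^ G w v) := by
      funext w v
      unfold pw
      exact min_eq_left ((hb w v).trans (Nat.le_succ _))
    rw [e1] at h1
    exact h1
  have hn2 : E2 (α := α) (fun w _ => w.length + 2) := E2.len.add (E2.const 2)
  have hlog : ∀ F : VF α, E2 F → E2 (fun w v => Nat.log 2 (F w v)) := by
    intro F hF
    exact (hL5 F F F F F hF hF hF hF hF).2.2.2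
  have hlam : E2 (α := α) (fun w _ => lam w.length) := by
    have := (hlog _ hn2).add (E2.const 1)
    exact this
  have hlll : E2 (α := α) (fun w _ => lll w.length) := hlog _ hlam
  have heee : E2 (α := α) (fun w _ => eee w.length) := by
    have := ((hL4 _ _ hlll (E2.const 2)).1).add (E2.const 1)
    exact this
  have hRR : E2 (α := α) (fun w _ => RR e w.length) := by
    have := ((hL4 _ _ ((E2.const e).mul hlam) heee).1).add (E2.const 1)
    exact this
  have hLL : E2 (α := α) (fun w _ => LL e w.length) := by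
    have := (E2.const (α := α) (5 * (e + 2))).mul hlam
    exact this
  -- 2 ^ lam ≤ (n + 2) ^ 2
  have b1 : ∀ n : ℕ, 2 ^ lam n ≤ (n + 2) ^ 2 := by
    intro n
    unfold lam
    have h1 : 2 ^ Nat.log 2 (n + 2) ≤ n + 2 := Nat.pow_log_le_self 2 (by omega)
    calc 2 ^ (Nat.log 2 (n + 2) + 1) = 2 ^ Nat.log 2 (n + 2) * 2 := pow_succ _ _
      _ ≤ (n + 2) * (n + 2) := Nat.mul_le_mul h1 (by omega)
      _ = (n + 2) ^ 2 := by ring
  have b2 : ∀ D n : ℕ, 2 ^ (D * lam n) ≤ (n + 2) ^ (2 * D) := by
    intro D n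
    calc 2 ^ (D * lam n) = (2 ^ lam n) ^ D := by rw [mul_comm, pow_mul]
      _ ≤ ((n + 2) ^ 2) ^ D := Nat.pow_le_pow_left (b1 n) _
      _ = (n + 2) ^ (2 * D) := by rw [← pow_mul]
  have b3 : ∀ n : ℕ, 2 ^ eee n ≤ 2 * lam n := by
    intro n
    unfold eee lll
    have h0 : lam n ≠ 0 := by unfold lam; omega
    have h1 : 2 ^ Nat.log 2 (lam n) ≤ lam n := Nat.pow_log_le_self 2 h0
    calc 2 ^ (Nat.log 2 (lam n) / 2 + 1) ≤ 2 ^ (Nat.log 2 (lam n) + 1) :=
          Nat.pow_le_pow_right (by norm_num) (by omega)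
      _ = 2 * 2 ^ Nat.log 2 (lam n) := by rw [pow_succ, mul_comm]
      _ ≤ 2 * lam n := Nat.mul_le_mul_left _ h1
  have hX : ∀ D : ℕ, E2 (α := α) (fun w _ => 2 ^ (D * lam w.length)) := by
    intro D
    exact hpow (fun _ _ => 2) (fun w _ => D * lam w.length) (fun w _ => (w.length + 2) ^ (2 * D))
      (E2.const 2) ((E2.const D).mul hlam) (hn2.powc (2 * D)) (fun w _ => b2 D w.length)
  have h2e : E2 (α := α) (fun w _ => 2 ^ eee w.length) := by
    exact hpow (fun _ _ => 2) (fun w _ => eee w.length) (fun w _ => 2 * lam w.length)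
      (E2.const 2) heee ((E2.const 2).mul hlam) (fun w _ => b3 w.length)
  have hkkk : E2 (α := α) (fun w _ => kkk w.length) := by
    have := (E2.const (α := α) 2).mul h2e
    exact this
  have hPL : E2 (α := α) (fun w _ => P (LL e w.length)) := (hPO _ hLL).1
  have hOL : E2 (α := α) (fun w _ => O (LL e w.length)) := (hPO _ hLL).2
  have h6 : E2 (α := α) (fun w _ => 6 * (P (LL e w.length) - 1)) := by
    have := (E2.const (α := α) 6).mul (hL1 _ _ hPL (E2.const 1)).1
    exact this
  have h9 : E2 (α := α) (fun w _ => kkk w.length + 1) := hkkk.add (E2.const 1)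
  have h10 : E2 (α := α) (fun w _ => (6 * (P (LL e w.length) - 1)) ^ (kkk w.length + 1)) := by
    exact hpow (fun w _ => 6 * (P (LL e w.length) - 1)) (fun w _ => kkk w.length + 1)
      (fun w _ => 2 ^ (C * lam w.length)) h6 h9 (hX C) (fun w _ => hbd w.length)
  refine ⟨?_, hRR⟩
  intro j
  match j with
  | 0 => exact hX C
  | 1 =>
    have h3 : E2 (α := α) (fun w _ => 3 * LL e w.length) := (E2.const (α := α) 3).mul hLL
    exact (hL5 (fun _ v => v 0) (fun w _ => P (LL e w.length)) (fun w _ => 3 * LL e w.length)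
      (fun _ v => v 0) (fun _ v => v 0) (E2.get 0) hPL h3 (E2.get 0) (E2.get 0)).1
  | 2 => exact (hn2.powc e).add (E2.const 2)
  | 3 => exact hn2.powc e
  | 4 => exact hLL
  | 5 => exact hX (5 * (e + 2))
  | 6 => exact hPL
  | 7 => exact hOL
  | 8 => exact h6
  | 9 => exact h9
  | 10 => exact h10
  | 11 => exact hkkk
  | 12 => exact hkkk.add (E2.const 3)
  | j + 13 => exact E2.zero

end Pool.Agent.Helper79.DC
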