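import Pool.Agent.Helper73.DC.St7

set_option autoImplicit false

/-! Project DC (helper73), MP_26f0da_lc: module D4 (helper79): derivations give runs. -/

namespace Pool.Agent.Helper79.DC

open Pool.Agent.Helper73.DC
open Finset
open scoped Classical

/-- A node which calls itself has no derivation. -/
theorem ev_stuck (lf cl : ℕ → ℕ) (rs : ℕ → ℕ → ℕ) (wt : ℕ → ℕ) (x v m k : ℕ) (h : Ev lf cl rs wt x v m k) :
    lf x = 0 → cl x = x → False := by
  induction h with
  | leaf x r hl => intro h0 _; omega
  | node x r1 m1 n1 r2 m2 n2 h0 hc hr ih1 ih2 =>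
    intro h0' hcl
    exact ih1 (by rw [hcl]; exact h0') (by rw [hcl]; exact hcl)

/-- Leaves. -/
theorem ev_leaf (lf cl : ℕ → ℕ) (rs : ℕ → ℕ → ℕ) (wt : ℕ → ℕ) (x v m k r : ℕ) (h : Ev lf cl rs wt x v m k)
    (hl : lf x = r + 1) : v = r ∧ m = wt x := by
  cases h with
  | leaf _ _ hl' => exact ⟨by omega, rfl⟩
  | node _ r1 m1 n1 r2 m2 n2 h0 hc hr => omega

theorem wt_leaf {α : Type} [Fintype α] (T : Tab) (w : List α) (x : ℕ) (h : T.lf w x ≠ 0) : T.wt w x = 0 := by
  unfold Tab.lf at h
  unfold Tab.wt
  by_cases h0 : T.kd w x = 0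
  · rw [if_neg (by omega)]
  · rw [if_neg h0] at h
    by_cases h1 : T.kd w x = 1
    · rw [if_neg (by omega)]
    · rw [if_neg h1] at h
      exact absurd rfl h

theorem mD4 : StD3 → StD4 := by
  intro h3
  intro α _ M T K num qn hD w x v m k hEv
  have hacE : ∀ r m n, Ev (T.lf w) (T.cl w) (rsb T w) (T.wt w) (T.ac w.length) r m n → r = 0 ∧ m = 0 := by
    intro r m n h
    obtain ⟨_, _, _, _, _, _, h7, h8, _⟩ := h3 M T K num qn hD w w.length le_rfl
    have := ev_leaf _ _ _ _ _ _ _ _ 0 h (by rw [h7])
    exact ⟨this.1, this.2.trans h8⟩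
  induction hEv with
  | leaf x r hl =>
    intro q β i hβ hi hx
    obtain ⟨h1, h2, h3', h4, h5, h6, h7, h8, h9⟩ := h3 M T K num qn hD w i hi
    have hwt : T.wt w x = 0 := wt_leaf T w x (by rw [hl]; exact Nat.succ_ne_zero r)
    rw [hwt]
    by_cases hacc : i = w.length ∧ M.acc q
    · have e1 := h1 q β hβ hacc.1 hacc.2
      rw [← hx, hl] at e1
      have hr : r = 0 := by omega
      refine ⟨fun _ => ⟨by omega, fun s => ⟨q, β ++ s, hacc.2, ?_⟩⟩, fun hne => absurd hr hne⟩
      rw [hacc.1, List.drop_length]
    · match β, hβ, hx with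
      | [], _, hx =>
        have e1 := h2 q hacc
        rw [← hx, hl] at e1
        have hr : r = qn q * (w.length + 1) + i + 1 := by omega
        refine ⟨fun h0 => by omega, fun _ => ⟨q, i, hr, by omega, hi, fun s => ?_⟩⟩
        exact Relation.ReflTransGen.refl
      | [Z], _, hx =>
        exfalso
        rcases hep : M.ep q Z with _ | ⟨q', γ⟩
        · by_cases htr : ∀ a, w[i]? = some a → M.tr q Z a = none
          · have := (h5 q Z hacc hep htr).1
            rw [← hx, hl] at this
            omega
          · push Not at htr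
            obtain ⟨a, ha, hta⟩ := htr
            rcases htr' : M.tr q Z a with _ | ⟨q', γ⟩
            · exact hta htr'
            · have := (h4 q Z q' γ a ha htr').1
              rw [← hx, hl] at this
              omega
        · have := (h3' q Z q' γ 0 hacc hep).1
          rw [← hx, hl] at this
          omega
      | Z :: Y :: β', hβ, hx =>
        exfalso
        have := (h6 q Z Y β' hβ hacc).1
        rw [← hx, hl] at this
        omega
  | node x r1 m1 n1 r2 m2 n2 h0 hc hr ih1 ih2 =>
    intro q β i hβ hi hx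
    obtain ⟨h1, h2, h3', h4, h5, h6, h7, h8, h9⟩ := h3 M T K num qn hD w i hi
    by_cases hacc : i = w.length ∧ M.acc q
    · exfalso
      have e1 := h1 q β hβ hacc.1 hacc.2
      rw [← hx, h0] at e1
      omega
    · match β, hβ, hx with
      | [], _, hx =>
        exfalso
        have e1 := h2 q hacc
        rw [← hx, h0] at e1
        omega
      | [Z], _, hx =>
        rcases hep : M.ep q Z with _ | ⟨q', γ⟩
        · by_cases htr : ∀ a, w[i]? = some a → M.tr q Z a = none
          · exfalso
            have e2 := (h5 q Z hacc hep htr).2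
            rw [← hx] at e2
            have hfull := Ev.node x r1 m1 n1 r2 m2 n2 h0 hc hr
            exact ev_stuck _ _ _ _ _ _ _ _ hfull h0 e2
          · push Not at htr
            obtain ⟨a, ha, hta⟩ := htr
            rcases htr' : M.tr q Z a with _ | ⟨q', γ⟩
            · exact absurd htr' hta
            · obtain ⟨_, e2, e3, e4⟩ := h4 q Z q' γ a ha htr'
              rw [← hx] at e2 e3 e4
              rw [e2] at hc
              obtain ⟨hr1, hm1⟩ := hacE _ _ _ hc
              have hlt : i < w.length := by
                by_contra hge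
                rw [List.getElem?_eq_none (by omega)] at ha
                exact absurd ha (by simp)
              have hget : w[i] = a := by
                rw [List.getElem?_eq_getElem hlt] at ha
                exact Option.some.inj ha
              have hdrop : w.drop i = a :: w.drop (i + 1) := by
                rw [List.drop_eq_getElem_cons hlt, hget]
              have hγ := hD.hKt q Z a q' γ htr'
              obtain ⟨j1, j2⟩ := ih2 q' γ (i + 1) hγ (by omega) (by rw [hr1, e3])
              rw [e4, hm1]
              refine ⟨fun hv => ?_, fun hv => ?_⟩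
              · obtain ⟨k1, k2⟩ := j1 hv
                refine ⟨by omega, fun s => ?_⟩
                obtain ⟨q2, s2, hq2, hrun⟩ := k2 s
                refine ⟨q2, s2, hq2, ?_⟩
                rw [hdrop]
                exact Relation.ReflTransGen.head (DPDA.Step.rd q q' a _ Z s γ htr') hrun
              · obtain ⟨q2, j, k1, k2, k3, k4⟩ := j2 hv
                refine ⟨q2, j, k1, by omega, k3, fun s => ?_⟩
                rw [hdrop]
                exact Relation.ReflTransGen.head (DPDA.Step.rd q q' a _ Z s γ htr') (k4 s)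
        · obtain ⟨_, e2, e3, e4, _⟩ := h3' q Z q' γ 0 hacc hep
          rw [← hx] at e2 e3 e4
          rw [e2] at hc
          obtain ⟨hr1, hm1⟩ := hacE _ _ _ hc
          have hγ := hD.hKe q Z q' γ hep
          obtain ⟨j1, j2⟩ := ih2 q' γ i hγ hi (by rw [hr1, e3])
          rw [e4, hm1]
          refine ⟨fun hv => ?_, fun hv => ?_⟩
          · obtain ⟨k1, k2⟩ := j1 hv
            refine ⟨by omega, fun s => ?_⟩
            obtain ⟨q2, s2, hq2, hrun⟩ := k2 s
            exact ⟨q2, s2, hq2, Relation.ReflTransGen.head (DPDA.Step.ep q q' _ Z s γ hep) hrun⟩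
          · obtain ⟨q2, j, k1, k2, k3, k4⟩ := j2 hv
            exact ⟨q2, j, k1, by omega, k3, fun s =>
              Relation.ReflTransGen.head (DPDA.Step.ep q q' _ Z s γ hep) (k4 s)⟩
      | Z :: Y :: β', hβ, hx =>
        obtain ⟨_, e2, e3, e4, e5⟩ := h6 q Z Y β' hβ hacc
        rw [← hx] at e2 e3 e4 e5
        obtain ⟨i1, i2⟩ := ih1 q [Z] i (by simpa using hD.hK) hi e2
        rw [e3]
        by_cases hr1 : r1 = 0
        · obtain ⟨k1, k2⟩ := i1 hr1
          rw [hr1, e4] at hr
          obtain ⟨hr2, hm2⟩ := hacE _ _ _ hr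
          refine ⟨fun _ => ⟨by omega, fun s => ?_⟩, fun hne => absurd hr2 hne⟩
          exact k2 (Y :: β' ++ s)
        · obtain ⟨q1, j1, k1, k2, k3, k4⟩ := i2 hr1
          have hβ2 : (Y :: β').length ≤ K := by
            simp only [List.length_cons] at hβ ⊢
            omega
          obtain ⟨l1, l2⟩ := ih2 q1 (Y :: β') j1 hβ2 k3 (by rw [k1, e5 q1 j1 k3])
          refine ⟨fun hv => ?_, fun hv => ?_⟩
          · obtain ⟨a1, a2⟩ := l1 hv
            refine ⟨by omega, fun s => ?_⟩
            obtain ⟨q2, s2, hq2, hrun⟩ := a2 s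
            exact ⟨q2, s2, hq2, Relation.ReflTransGen.trans (k4 (Y :: β' ++ s)) hrun⟩
          · obtain ⟨q2, j, a1, a2, a3, a4⟩ := l2 hv
            exact ⟨q2, j, a1, by omega, a3, fun s =>
              Relation.ReflTransGen.trans (k4 (Y :: β' ++ s)) (a4 s)⟩

end Pool.Agent.Helper79.DC
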